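import Pool.Agent.K1H4.PG.Main

/-!
# Spectral bound and growth bound of positive groups on ordered Hilbert spaces

`H` is a real Hilbert space with a closed, normal and generating cone `P`, `K = H ⊕ i H` its
complexification and `T` a strongly continuous group of positive operators on `K`. Then the growth
bound of `T` is the spectral bound of its generator, and it is a spectral value.

Proof. Let `ω` be the growth bound and suppose it is in the resolvent set. Then the resolvents
`R(λ)`, `λ > ω` real, are bounded near `ω`; they are Laplace transforms, so by positivity and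
normality of the cone `‖R(λ + iμ) x‖ ≤ C ‖R(λ) x‖` for all `x` in the cone, and by the uniform
boundedness principle `R(λ + iμ)` is bounded for `ω < λ ≤ ω + δ`, `μ` real. By Plancherel's theorem and the
resolvent identity the integrals of `e ^ (- 2 λ t) ‖T t x‖ ^ 2` are bounded as `λ → ω`, and by Datko's
argument the growth bound is less than `ω`.
-/

set_option autoImplicit false

namespace Pool.Agent.Results.MP_e5770a_an.PositiveGroups

open Filter Topology Pool.Agent.K1H4.PG

theorem result {H K : Type*} [NormedAddCommGroup H] [InnerProductSpace ℝ H] [CompleteSpace H]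
    [Nontrivial H] [NormedAddCommGroup K] [InnerProductSpace ℂ K] [CompleteSpace K]
    (j : H →ₗ[ℝ] K) (hj : IsComplexification j) (P : Set H) (hP : NormalGeneratingCone P)
    (T : ℝ → K →L[ℂ] K) (hT : IsC0Group T) (hpos : ∀ t : ℝ, ∀ x ∈ P, T t (j x) ∈ j '' P) :
    ∃ ω : ℝ, Tendsto (fun t : ℝ => t⁻¹ * Real.log ‖T t‖) atTop (𝓝 ω) ∧
      IsLUB (Complex.re '' spectrumGen T) ω ∧ (ω : ℂ) ∈ spectrumGen T :=
  main hj hP hT hpos

end Pool.Agent.Results.MP_e5770a_an.PositiveGroups
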